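import Pool.Agent.H739.AR.Space
import Pool.Graph.R_seed8.Helper330.DPF.P_holds
import Pool.Graph.R_seed8.Helper330.DPF.P_omegaOne
import Pool.Graph.R_seed8.Helper330.DPF.P_existsDec
import Pool.Graph.R_seed8.Helper330.DPF.P_botCond

/-!
# Consistently, a compact space satisfying (H) need not be hereditarily α-realcompact

From `◊*` we get a Corson compact space of weight at most `ℵ₁` which satisfies (H) and has a
subspace which is not α-realcompact. The principle `◊⁺`, which implies `◊*`, is forced by a
notion of forcing which preserves `ω₁`.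
-/

set_option autoImplicit false

namespace Pool.Agent.Results.MP_8c874d_gt.ConsistentlyNotAlpha

open Set Cardinal Topology
open Pool.Agent.Helper330.DPF
open Pool.Agent.Results.MP_8c874d_gt.NotRadon
open Pool.Agent.H739.AR

theorem diamondStar_of_diamondPlus (h : DiamondPlus) : DiamondStar := by
  obtain ⟨B, hB⟩ := h
  refine ⟨B, fun X => ?_⟩
  obtain ⟨C, h1, h2, h3⟩ := hB X
  exact ⟨C, h1, h2, fun a ha => (h3 a ha).1⟩

theorem result :
    (∃ (P : Type) (_ : Preorder P), Nonempty P ∧ ∀ p : P,
      p ∈ OmegaOnePreserved P ∧ p ∈ DiamondPlusHolds P) ∧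
    (DiamondPlus → DiamondStar) ∧
    (DiamondStar → ∃ (X : Type) (_ : TopologicalSpace X), CompactSpace X ∧ T2Space X ∧
      PropertyH X ∧
      (∃ (I : Type) (f : X → I → Bool), #I = ℵ₁ ∧ IsEmbedding f ∧
        ∀ x, {i | f x i = true}.Countable) ∧
      ¬ HereditarilyAlphaRealcompact X) := by
  refine ⟨?_, diamondStar_of_diamondPlus, fun h => ?_⟩
  · obtain ⟨D, hD⟩ := existsDec
    exact ⟨PD D, inferInstance, botCond D, fun p => ⟨omegaOne p, holds hD p⟩⟩
  · obtain ⟨e, he⟩ := exists_emb
    exact ⟨K e, inferInstance, inferInstance, inferInstance, propertyH e,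
      ⟨Om, fun x => x.1, mk_Om, IsEmbedding.subtypeVal, countable_supp⟩, not_hereditarily he h⟩

end Pool.Agent.Results.MP_8c874d_gt.ConsistentlyNotAlpha
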